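import Mathlib

set_option autoImplicit false
set_option linter.unusedVariables false
set_option linter.unusedSimpArgs false

open MeasureTheory Set Filter Topology Pointwise

namespace Pool.Agent.Results.MP_a80f1a_gt.OctahedronCounterexample

/-- The `K`-surface area of `A` (the one-sided derivative at `0` of the volume of `A ⊕ δ K`)
exists and equals `v`. -/
def HasSurfaceArea {d : ℕ} (K A : Set (Fin d → ℝ)) (v : ℝ) : Prop :=
  Tendsto (fun δ : ℝ => ((volume (A + δ • K)).toReal - (volume A).toReal) / δ)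
    (𝓝[>] (0 : ℝ)) (𝓝 v)

/-- `K(x₀; r)`: the set `r K` translated so that its centre is `x₀`, where `c` is the centre
of `K`. -/
def copyAt {d : ℕ} (K : Set (Fin d → ℝ)) (c x₀ : Fin d → ℝ) (r : ℝ) : Set (Fin d → ℝ) :=
  (fun y => x₀ + r • (y - c)) '' K

/-- octahedron with centre `c` and radius `s` -/
def B (c : Fin 3 → ℝ) (s : ℝ) : Set (Fin 3 → ℝ) :=
  {x | |x 0 - c 0| + |x 1 - c 1| + |x 2 - c 2| ≤ s}

theorem isClosed_B (c : Fin 3 → ℝ) (s : ℝ) : IsClosed (B c s) := by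
  unfold B
  exact isClosed_le (by fun_prop) continuous_const

theorem measurable_B (c : Fin 3 → ℝ) (s : ℝ) : MeasurableSet (B c s) :=
  (isClosed_B c s).measurableSet

theorem volume_B_zero (s : ℝ) (hs : 0 ≤ s) : volume (B 0 s) = ENNReal.ofReal (4 / 3 * s ^ 3) := by
  have h := MeasureTheory.volume_sum_rpow_le (ι := Fin 3) (p := 1) le_rfl s
  have e : {x : Fin 3 → ℝ | (∑ i, |x i| ^ (1 : ℝ)) ^ (1 / (1 : ℝ)) ≤ s} = B 0 s := by
    ext x
    simp [B, Fin.sum_univ_three]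
  rw [e] at h
  rw [h]
  have g2 : Real.Gamma (1 / (1 : ℝ) + 1) = 1 := by norm_num
  have g4 : Real.Gamma (((Fintype.card (Fin 3) : ℕ) : ℝ) / (1 : ℝ) + 1) = 6 := by
    have : (((Fintype.card (Fin 3) : ℕ) : ℝ) / (1 : ℝ) + 1) = ((3 : ℕ) : ℝ) + 1 := by simp
    rw [this, Real.Gamma_nat_eq_factorial]
    norm_num [Nat.factorial]
  rw [g2, g4]
  rw [← ENNReal.ofReal_pow hs, ← ENNReal.ofReal_mul (by positivity)]
  congr 1
  simp
  ring

theorem volume_B (c : Fin 3 → ℝ) (s : ℝ) (hs : 0 ≤ s) :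
    volume (B c s) = ENNReal.ofReal (4 / 3 * s ^ 3) := by
  rw [← volume_B_zero s hs]
  have : B c s = (fun x => x + (-c)) ⁻¹' (B 0 s) := by
    ext x
    simp [B, sub_eq_add_neg]
  rw [this, measure_preimage_add_right]

/-- a set squeezed in a sheared thin box is small -/
theorem volume_box_le (M : Matrix (Fin 3) (Fin 3) ℝ) (hM : |M.det| = 1) (δ : ℝ) (hδ : 0 ≤ δ)
    (S : Set (Fin 3 → ℝ))
    (hS : ∀ y ∈ S, |M.mulVec y 0| ≤ δ ∧ |M.mulVec y 1| ≤ δ ∧ |M.mulVec y 2| ≤ 3) :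
    volume S ≤ ENNReal.ofReal (24 * δ ^ 2) := by
  have hdet : M.det ≠ 0 := by
    intro h
    rw [h] at hM
    simp at hM
  let b : Fin 3 → ℝ := ![δ, δ, 3]
  have hsub : S ⊆ (Matrix.toLin' M) ⁻¹' (Icc (-b) b) := by
    intro y hy
    obtain ⟨h0, h1, h2⟩ := hS y hy
    rw [abs_le] at h0 h1 h2
    simp only [mem_preimage, mem_Icc, Matrix.toLin'_apply]
    constructor
    · intro i
      fin_cases i
      · exact h0.1
      · exact h1.1
      · exact h2.1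
    · intro i
      fin_cases i
      · exact h0.2
      · exact h1.2
      · exact h2.2
  have hmap := Real.map_matrix_volume_pi_eq_smul_volume_pi hdet
  have hmeas : volume ((Matrix.toLin' M) ⁻¹' (Icc (-b) b)) = volume (Icc (-b) b) := by
    have hcont : Measurable (Matrix.toLin' M) :=
      (LinearMap.continuous_of_finiteDimensional _).measurable
    rw [← Measure.map_apply hcont measurableSet_Icc, hmap]
    rw [abs_inv, hM]
    simp
  calc volume S ≤ volume ((Matrix.toLin' M) ⁻¹' (Icc (-b) b)) := measure_mono hsub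
    _ = volume (Icc (-b) b) := hmeas
    _ = ENNReal.ofReal (24 * δ ^ 2) := by
        rw [Real.volume_Icc_pi, Fin.prod_univ_three]
        simp only [b, Pi.neg_apply, Matrix.cons_val_zero, Matrix.cons_val_one, Matrix.cons_val_two,
          Matrix.head_cons, Matrix.tail_cons]
        rw [← ENNReal.ofReal_mul (by linarith), ← ENNReal.ofReal_mul (by nlinarith)]
        congr 1
        simp
        ring

/-- the six vertices of the octahedron -/
def ctr : Fin 6 → (Fin 3 → ℝ) :=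
  ![![1, 0, 0], ![-1, 0, 0], ![0, 1, 0], ![0, -1, 0], ![0, 0, 1], ![0, 0, -1]]

theorem pair_aux (δ : ℝ) (hδ : 0 ≤ δ) (hδ1 : δ ≤ 1) (a b c a' b' c' : ℝ)
    (m00 m01 m02 m10 m11 m12 m20 m21 m22 : ℝ)
    (hM : |m00 * m11 * m22 - m00 * m12 * m21 - m01 * m10 * m22 + m01 * m12 * m20
      + m02 * m10 * m21 - m02 * m11 * m20| = 1)
    (h : ∀ x y z : ℝ, |x - a| + |y - b| + |z - c| ≤ 1 + δ →
        |x - a'| + |y - b'| + |z - c'| ≤ 1 + δ →
        |m00 * x + m01 * y + m02 * z| ≤ δ ∧ |m10 * x + m11 * y + m12 * z| ≤ δ ∧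
          |m20 * x + m21 * y + m22 * z| ≤ 3) :
    volume (B ![a, b, c] (1 + δ) ∩ B ![a', b', c'] (1 + δ)) ≤ ENNReal.ofReal (24 * δ ^ 2) := by
  apply volume_box_le !![m00, m01, m02; m10, m11, m12; m20, m21, m22] _ δ hδ
  · intro y hy
    have h1 : |y 0 - a| + |y 1 - b| + |y 2 - c| ≤ 1 + δ := hy.1
    have h2 : |y 0 - a'| + |y 1 - b'| + |y 2 - c'| ≤ 1 + δ := hy.2
    have h3 := h (y 0) (y 1) (y 2) h1 h2
    simpa [Matrix.mulVec, dotProduct, Fin.sum_univ_three] using h3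
  · rw [Matrix.det_fin_three]
    simpa using hM

theorem pair_arith01 (δ : ℝ) (hδ : 0 ≤ δ) (hδ1 : δ ≤ 1) (x y z : ℝ)
    (h1 : |x - 1| + |y| + |z| ≤ 1 + δ)
    (h2 : |x + 1| + |y| + |z| ≤ 1 + δ) :
    |y| ≤ δ ∧ |z| ≤ δ ∧ |x| ≤ 3 := by
  have a1 := le_abs_self (x - 1)
  have b1 := neg_abs_le (x - 1)
  have a2 := le_abs_self (y)
  have b2 := neg_abs_le (y)
  have a3 := le_abs_self (z)
  have b3 := neg_abs_le (z)
  have a4 := le_abs_self (x + 1)
  have b4 := neg_abs_le (x + 1)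
  refine ⟨abs_le.2 ⟨by linarith, by linarith⟩, abs_le.2 ⟨by linarith, by linarith⟩,
    abs_le.2 ⟨by linarith, by linarith⟩⟩

theorem pair_arith02 (δ : ℝ) (hδ : 0 ≤ δ) (hδ1 : δ ≤ 1) (x y z : ℝ)
    (h1 : |x - 1| + |y| + |z| ≤ 1 + δ)
    (h2 : |x| + |y - 1| + |z| ≤ 1 + δ) :
    |x + -1 * y| ≤ δ ∧ |z| ≤ δ ∧ |x| ≤ 3 := by
  have a1 := le_abs_self (x - 1)
  have b1 := neg_abs_le (x - 1)
  have a2 := le_abs_self (y)
  have b2 := neg_abs_le (y)
  have a3 := le_abs_self (z)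
  have b3 := neg_abs_le (z)
  have a4 := le_abs_self (x)
  have b4 := neg_abs_le (x)
  have a5 := le_abs_self (y - 1)
  have b5 := neg_abs_le (y - 1)
  refine ⟨abs_le.2 ⟨by linarith, by linarith⟩, abs_le.2 ⟨by linarith, by linarith⟩,
    abs_le.2 ⟨by linarith, by linarith⟩⟩

theorem pair_arith03 (δ : ℝ) (hδ : 0 ≤ δ) (hδ1 : δ ≤ 1) (x y z : ℝ)
    (h1 : |x - 1| + |y| + |z| ≤ 1 + δ)
    (h2 : |x| + |y + 1| + |z| ≤ 1 + δ) :
    |x + y| ≤ δ ∧ |z| ≤ δ ∧ |x| ≤ 3 := by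
  have a1 := le_abs_self (x - 1)
  have b1 := neg_abs_le (x - 1)
  have a2 := le_abs_self (y)
  have b2 := neg_abs_le (y)
  have a3 := le_abs_self (z)
  have b3 := neg_abs_le (z)
  have a4 := le_abs_self (x)
  have b4 := neg_abs_le (x)
  have a5 := le_abs_self (y + 1)
  have b5 := neg_abs_le (y + 1)
  refine ⟨abs_le.2 ⟨by linarith, by linarith⟩, abs_le.2 ⟨by linarith, by linarith⟩,
    abs_le.2 ⟨by linarith, by linarith⟩⟩

theorem pair_arith04 (δ : ℝ) (hδ : 0 ≤ δ) (hδ1 : δ ≤ 1) (x y z : ℝ)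
    (h1 : |x - 1| + |y| + |z| ≤ 1 + δ)
    (h2 : |x| + |y| + |z - 1| ≤ 1 + δ) :
    |x + -1 * z| ≤ δ ∧ |y| ≤ δ ∧ |x| ≤ 3 := by
  have a1 := le_abs_self (x - 1)
  have b1 := neg_abs_le (x - 1)
  have a2 := le_abs_self (y)
  have b2 := neg_abs_le (y)
  have a3 := le_abs_self (z)
  have b3 := neg_abs_le (z)
  have a4 := le_abs_self (x)
  have b4 := neg_abs_le (x)
  have a5 := le_abs_self (z - 1)
  have b5 := neg_abs_le (z - 1)
  refine ⟨abs_le.2 ⟨by linarith, by linarith⟩, abs_le.2 ⟨by linarith, by linarith⟩,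
    abs_le.2 ⟨by linarith, by linarith⟩⟩

theorem pair_arith05 (δ : ℝ) (hδ : 0 ≤ δ) (hδ1 : δ ≤ 1) (x y z : ℝ)
    (h1 : |x - 1| + |y| + |z| ≤ 1 + δ)
    (h2 : |x| + |y| + |z + 1| ≤ 1 + δ) :
    |x + z| ≤ δ ∧ |y| ≤ δ ∧ |x| ≤ 3 := by
  have a1 := le_abs_self (x - 1)
  have b1 := neg_abs_le (x - 1)
  have a2 := le_abs_self (y)
  have b2 := neg_abs_le (y)
  have a3 := le_abs_self (z)
  have b3 := neg_abs_le (z)
  have a4 := le_abs_self (x)
  have b4 := neg_abs_le (x)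
  have a5 := le_abs_self (z + 1)
  have b5 := neg_abs_le (z + 1)
  refine ⟨abs_le.2 ⟨by linarith, by linarith⟩, abs_le.2 ⟨by linarith, by linarith⟩,
    abs_le.2 ⟨by linarith, by linarith⟩⟩

theorem pair_arith12 (δ : ℝ) (hδ : 0 ≤ δ) (hδ1 : δ ≤ 1) (x y z : ℝ)
    (h1 : |x + 1| + |y| + |z| ≤ 1 + δ)
    (h2 : |x| + |y - 1| + |z| ≤ 1 + δ) :
    |x + y| ≤ δ ∧ |z| ≤ δ ∧ |x| ≤ 3 := by
  have a1 := le_abs_self (x + 1)
  have b1 := neg_abs_le (x + 1)
  have a2 := le_abs_self (y)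
  have b2 := neg_abs_le (y)
  have a3 := le_abs_self (z)
  have b3 := neg_abs_le (z)
  have a4 := le_abs_self (x)
  have b4 := neg_abs_le (x)
  have a5 := le_abs_self (y - 1)
  have b5 := neg_abs_le (y - 1)
  refine ⟨abs_le.2 ⟨by linarith, by linarith⟩, abs_le.2 ⟨by linarith, by linarith⟩,
    abs_le.2 ⟨by linarith, by linarith⟩⟩

theorem pair_arith13 (δ : ℝ) (hδ : 0 ≤ δ) (hδ1 : δ ≤ 1) (x y z : ℝ)
    (h1 : |x + 1| + |y| + |z| ≤ 1 + δ)
    (h2 : |x| + |y + 1| + |z| ≤ 1 + δ) :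
    |x + -1 * y| ≤ δ ∧ |z| ≤ δ ∧ |x| ≤ 3 := by
  have a1 := le_abs_self (x + 1)
  have b1 := neg_abs_le (x + 1)
  have a2 := le_abs_self (y)
  have b2 := neg_abs_le (y)
  have a3 := le_abs_self (z)
  have b3 := neg_abs_le (z)
  have a4 := le_abs_self (x)
  have b4 := neg_abs_le (x)
  have a5 := le_abs_self (y + 1)
  have b5 := neg_abs_le (y + 1)
  refine ⟨abs_le.2 ⟨by linarith, by linarith⟩, abs_le.2 ⟨by linarith, by linarith⟩,
    abs_le.2 ⟨by linarith, by linarith⟩⟩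

theorem pair_arith14 (δ : ℝ) (hδ : 0 ≤ δ) (hδ1 : δ ≤ 1) (x y z : ℝ)
    (h1 : |x + 1| + |y| + |z| ≤ 1 + δ)
    (h2 : |x| + |y| + |z - 1| ≤ 1 + δ) :
    |x + z| ≤ δ ∧ |y| ≤ δ ∧ |x| ≤ 3 := by
  have a1 := le_abs_self (x + 1)
  have b1 := neg_abs_le (x + 1)
  have a2 := le_abs_self (y)
  have b2 := neg_abs_le (y)
  have a3 := le_abs_self (z)
  have b3 := neg_abs_le (z)
  have a4 := le_abs_self (x)
  have b4 := neg_abs_le (x)
  have a5 := le_abs_self (z - 1)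
  have b5 := neg_abs_le (z - 1)
  refine ⟨abs_le.2 ⟨by linarith, by linarith⟩, abs_le.2 ⟨by linarith, by linarith⟩,
    abs_le.2 ⟨by linarith, by linarith⟩⟩

theorem pair_arith15 (δ : ℝ) (hδ : 0 ≤ δ) (hδ1 : δ ≤ 1) (x y z : ℝ)
    (h1 : |x + 1| + |y| + |z| ≤ 1 + δ)
    (h2 : |x| + |y| + |z + 1| ≤ 1 + δ) :
    |x + -1 * z| ≤ δ ∧ |y| ≤ δ ∧ |x| ≤ 3 := by
  have a1 := le_abs_self (x + 1)
  have b1 := neg_abs_le (x + 1)
  have a2 := le_abs_self (y)
  have b2 := neg_abs_le (y)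
  have a3 := le_abs_self (z)
  have b3 := neg_abs_le (z)
  have a4 := le_abs_self (x)
  have b4 := neg_abs_le (x)
  have a5 := le_abs_self (z + 1)
  have b5 := neg_abs_le (z + 1)
  refine ⟨abs_le.2 ⟨by linarith, by linarith⟩, abs_le.2 ⟨by linarith, by linarith⟩,
    abs_le.2 ⟨by linarith, by linarith⟩⟩

theorem pair_arith23 (δ : ℝ) (hδ : 0 ≤ δ) (hδ1 : δ ≤ 1) (x y z : ℝ)
    (h1 : |x| + |y - 1| + |z| ≤ 1 + δ)
    (h2 : |x| + |y + 1| + |z| ≤ 1 + δ) :
    |x| ≤ δ ∧ |z| ≤ δ ∧ |y| ≤ 3 := by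
  have a1 := le_abs_self (x)
  have b1 := neg_abs_le (x)
  have a2 := le_abs_self (y - 1)
  have b2 := neg_abs_le (y - 1)
  have a3 := le_abs_self (z)
  have b3 := neg_abs_le (z)
  have a4 := le_abs_self (y + 1)
  have b4 := neg_abs_le (y + 1)
  refine ⟨abs_le.2 ⟨by linarith, by linarith⟩, abs_le.2 ⟨by linarith, by linarith⟩,
    abs_le.2 ⟨by linarith, by linarith⟩⟩

theorem pair_arith24 (δ : ℝ) (hδ : 0 ≤ δ) (hδ1 : δ ≤ 1) (x y z : ℝ)
    (h1 : |x| + |y - 1| + |z| ≤ 1 + δ)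
    (h2 : |x| + |y| + |z - 1| ≤ 1 + δ) :
    |y + -1 * z| ≤ δ ∧ |x| ≤ δ ∧ |y| ≤ 3 := by
  have a1 := le_abs_self (x)
  have b1 := neg_abs_le (x)
  have a2 := le_abs_self (y - 1)
  have b2 := neg_abs_le (y - 1)
  have a3 := le_abs_self (z)
  have b3 := neg_abs_le (z)
  have a4 := le_abs_self (y)
  have b4 := neg_abs_le (y)
  have a5 := le_abs_self (z - 1)
  have b5 := neg_abs_le (z - 1)
  refine ⟨abs_le.2 ⟨by linarith, by linarith⟩, abs_le.2 ⟨by linarith, by linarith⟩,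
    abs_le.2 ⟨by linarith, by linarith⟩⟩

theorem pair_arith25 (δ : ℝ) (hδ : 0 ≤ δ) (hδ1 : δ ≤ 1) (x y z : ℝ)
    (h1 : |x| + |y - 1| + |z| ≤ 1 + δ)
    (h2 : |x| + |y| + |z + 1| ≤ 1 + δ) :
    |y + z| ≤ δ ∧ |x| ≤ δ ∧ |y| ≤ 3 := by
  have a1 := le_abs_self (x)
  have b1 := neg_abs_le (x)
  have a2 := le_abs_self (y - 1)
  have b2 := neg_abs_le (y - 1)
  have a3 := le_abs_self (z)
  have b3 := neg_abs_le (z)
  have a4 := le_abs_self (y)
  have b4 := neg_abs_le (y)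
  have a5 := le_abs_self (z + 1)
  have b5 := neg_abs_le (z + 1)
  refine ⟨abs_le.2 ⟨by linarith, by linarith⟩, abs_le.2 ⟨by linarith, by linarith⟩,
    abs_le.2 ⟨by linarith, by linarith⟩⟩

theorem pair_arith34 (δ : ℝ) (hδ : 0 ≤ δ) (hδ1 : δ ≤ 1) (x y z : ℝ)
    (h1 : |x| + |y + 1| + |z| ≤ 1 + δ)
    (h2 : |x| + |y| + |z - 1| ≤ 1 + δ) :
    |y + z| ≤ δ ∧ |x| ≤ δ ∧ |y| ≤ 3 := by
  have a1 := le_abs_self (x)
  have b1 := neg_abs_le (x)
  have a2 := le_abs_self (y + 1)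
  have b2 := neg_abs_le (y + 1)
  have a3 := le_abs_self (z)
  have b3 := neg_abs_le (z)
  have a4 := le_abs_self (y)
  have b4 := neg_abs_le (y)
  have a5 := le_abs_self (z - 1)
  have b5 := neg_abs_le (z - 1)
  refine ⟨abs_le.2 ⟨by linarith, by linarith⟩, abs_le.2 ⟨by linarith, by linarith⟩,
    abs_le.2 ⟨by linarith, by linarith⟩⟩

theorem pair_arith35 (δ : ℝ) (hδ : 0 ≤ δ) (hδ1 : δ ≤ 1) (x y z : ℝ)
    (h1 : |x| + |y + 1| + |z| ≤ 1 + δ)
    (h2 : |x| + |y| + |z + 1| ≤ 1 + δ) :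
    |y + -1 * z| ≤ δ ∧ |x| ≤ δ ∧ |y| ≤ 3 := by
  have a1 := le_abs_self (x)
  have b1 := neg_abs_le (x)
  have a2 := le_abs_self (y + 1)
  have b2 := neg_abs_le (y + 1)
  have a3 := le_abs_self (z)
  have b3 := neg_abs_le (z)
  have a4 := le_abs_self (y)
  have b4 := neg_abs_le (y)
  have a5 := le_abs_self (z + 1)
  have b5 := neg_abs_le (z + 1)
  refine ⟨abs_le.2 ⟨by linarith, by linarith⟩, abs_le.2 ⟨by linarith, by linarith⟩,
    abs_le.2 ⟨by linarith, by linarith⟩⟩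

theorem pair_arith45 (δ : ℝ) (hδ : 0 ≤ δ) (hδ1 : δ ≤ 1) (x y z : ℝ)
    (h1 : |x| + |y| + |z - 1| ≤ 1 + δ)
    (h2 : |x| + |y| + |z + 1| ≤ 1 + δ) :
    |x| ≤ δ ∧ |y| ≤ δ ∧ |z| ≤ 3 := by
  have a1 := le_abs_self (x)
  have b1 := neg_abs_le (x)
  have a2 := le_abs_self (y)
  have b2 := neg_abs_le (y)
  have a3 := le_abs_self (z - 1)
  have b3 := neg_abs_le (z - 1)
  have a4 := le_abs_self (z + 1)
  have b4 := neg_abs_le (z + 1)
  refine ⟨abs_le.2 ⟨by linarith, by linarith⟩, abs_le.2 ⟨by linarith, by linarith⟩,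
    abs_le.2 ⟨by linarith, by linarith⟩⟩

theorem pair_lt (δ : ℝ) (hδ : 0 ≤ δ) (hδ1 : δ ≤ 1) (i j : Fin 6) (hij : i < j) :
    volume (B (ctr i) (1 + δ) ∩ B (ctr j) (1 + δ)) ≤ ENNReal.ofReal (24 * δ ^ 2) := by
  fin_cases i <;> fin_cases j <;> first
    | (exfalso; revert hij; decide)
    | skip
  · refine pair_aux δ hδ hδ1 1 0 0 (-1) 0 0 0 1 0 0 0 1 1 0 0 (by norm_num) ?_
    intro x y z h1 h2
    simp only [sub_zero, sub_neg_eq_add] at h1 h2
    simp only [zero_mul, one_mul, zero_add, add_zero]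
    exact pair_arith01 δ hδ hδ1 x y z h1 h2
  · refine pair_aux δ hδ hδ1 1 0 0 0 1 0 1 (-1) 0 0 0 1 1 0 0 (by norm_num) ?_
    intro x y z h1 h2
    simp only [sub_zero, sub_neg_eq_add] at h1 h2
    simp only [zero_mul, one_mul, zero_add, add_zero]
    exact pair_arith02 δ hδ hδ1 x y z h1 h2
  · refine pair_aux δ hδ hδ1 1 0 0 0 (-1) 0 1 1 0 0 0 1 1 0 0 (by norm_num) ?_
    intro x y z h1 h2
    simp only [sub_zero, sub_neg_eq_add] at h1 h2
    simp only [zero_mul, one_mul, zero_add, add_zero]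
    exact pair_arith03 δ hδ hδ1 x y z h1 h2
  · refine pair_aux δ hδ hδ1 1 0 0 0 0 1 1 0 (-1) 0 1 0 1 0 0 (by norm_num) ?_
    intro x y z h1 h2
    simp only [sub_zero, sub_neg_eq_add] at h1 h2
    simp only [zero_mul, one_mul, zero_add, add_zero]
    exact pair_arith04 δ hδ hδ1 x y z h1 h2
  · refine pair_aux δ hδ hδ1 1 0 0 0 0 (-1) 1 0 1 0 1 0 1 0 0 (by norm_num) ?_
    intro x y z h1 h2
    simp only [sub_zero, sub_neg_eq_add] at h1 h2
    simp only [zero_mul, one_mul, zero_add, add_zero]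
    exact pair_arith05 δ hδ hδ1 x y z h1 h2
  · refine pair_aux δ hδ hδ1 (-1) 0 0 0 1 0 1 1 0 0 0 1 1 0 0 (by norm_num) ?_
    intro x y z h1 h2
    simp only [sub_zero, sub_neg_eq_add] at h1 h2
    simp only [zero_mul, one_mul, zero_add, add_zero]
    exact pair_arith12 δ hδ hδ1 x y z h1 h2
  · refine pair_aux δ hδ hδ1 (-1) 0 0 0 (-1) 0 1 (-1) 0 0 0 1 1 0 0 (by norm_num) ?_
    intro x y z h1 h2
    simp only [sub_zero, sub_neg_eq_add] at h1 h2
    simp only [zero_mul, one_mul, zero_add, add_zero]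
    exact pair_arith13 δ hδ hδ1 x y z h1 h2
  · refine pair_aux δ hδ hδ1 (-1) 0 0 0 0 1 1 0 1 0 1 0 1 0 0 (by norm_num) ?_
    intro x y z h1 h2
    simp only [sub_zero, sub_neg_eq_add] at h1 h2
    simp only [zero_mul, one_mul, zero_add, add_zero]
    exact pair_arith14 δ hδ hδ1 x y z h1 h2
  · refine pair_aux δ hδ hδ1 (-1) 0 0 0 0 (-1) 1 0 (-1) 0 1 0 1 0 0 (by norm_num) ?_
    intro x y z h1 h2
    simp only [sub_zero, sub_neg_eq_add] at h1 h2
    simp only [zero_mul, one_mul, zero_add, add_zero]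
    exact pair_arith15 δ hδ hδ1 x y z h1 h2
  · refine pair_aux δ hδ hδ1 0 1 0 0 (-1) 0 1 0 0 0 0 1 0 1 0 (by norm_num) ?_
    intro x y z h1 h2
    simp only [sub_zero, sub_neg_eq_add] at h1 h2
    simp only [zero_mul, one_mul, zero_add, add_zero]
    exact pair_arith23 δ hδ hδ1 x y z h1 h2
  · refine pair_aux δ hδ hδ1 0 1 0 0 0 1 0 1 (-1) 1 0 0 0 1 0 (by norm_num) ?_
    intro x y z h1 h2
    simp only [sub_zero, sub_neg_eq_add] at h1 h2
    simp only [zero_mul, one_mul, zero_add, add_zero]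
    exact pair_arith24 δ hδ hδ1 x y z h1 h2
  · refine pair_aux δ hδ hδ1 0 1 0 0 0 (-1) 0 1 1 1 0 0 0 1 0 (by norm_num) ?_
    intro x y z h1 h2
    simp only [sub_zero, sub_neg_eq_add] at h1 h2
    simp only [zero_mul, one_mul, zero_add, add_zero]
    exact pair_arith25 δ hδ hδ1 x y z h1 h2
  · refine pair_aux δ hδ hδ1 0 (-1) 0 0 0 1 0 1 1 1 0 0 0 1 0 (by norm_num) ?_
    intro x y z h1 h2
    simp only [sub_zero, sub_neg_eq_add] at h1 h2
    simp only [zero_mul, one_mul, zero_add, add_zero]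
    exact pair_arith34 δ hδ hδ1 x y z h1 h2
  · refine pair_aux δ hδ hδ1 0 (-1) 0 0 0 (-1) 0 1 (-1) 1 0 0 0 1 0 (by norm_num) ?_
    intro x y z h1 h2
    simp only [sub_zero, sub_neg_eq_add] at h1 h2
    simp only [zero_mul, one_mul, zero_add, add_zero]
    exact pair_arith35 δ hδ hδ1 x y z h1 h2
  · refine pair_aux δ hδ hδ1 0 0 1 0 0 (-1) 1 0 0 0 1 0 0 0 1 (by norm_num) ?_
    intro x y z h1 h2
    simp only [sub_zero, sub_neg_eq_add] at h1 h2
    simp only [zero_mul, one_mul, zero_add, add_zero]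
    exact pair_arith45 δ hδ hδ1 x y z h1 h2

theorem pair_le (δ : ℝ) (hδ : 0 ≤ δ) (hδ1 : δ ≤ 1) (i j : Fin 6) (hij : i ≠ j) :
    volume (B (ctr i) (1 + δ) ∩ B (ctr j) (1 + δ)) ≤ ENNReal.ofReal (24 * δ ^ 2) := by
  rcases lt_or_gt_of_ne hij with h | h
  · exact pair_lt δ hδ hδ1 i j h
  · rw [inter_comm]
    exact pair_lt δ hδ hδ1 j i h

/-- Bonferroni -/
theorem bonf {α ι : Type*} [MeasurableSpace α] [DecidableEq ι] (μ : Measure α) (t : Finset ι)
    (S : ι → Set α) (hS : ∀ i, MeasurableSet (S i)) (ε : ENNReal)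
    (h : ∀ i j, i ≠ j → μ (S i ∩ S j) ≤ ε) :
    ∑ i ∈ t, μ (S i) ≤ μ (⋃ i ∈ t, S i) + (t.card : ENNReal) ^ 2 * ε := by
  induction t using Finset.induction_on with
  | empty => simp
  | insert a t ha ih =>
    rw [Finset.sum_insert ha, Finset.card_insert_of_notMem ha, Finset.set_biUnion_insert]
    have h1 : μ (S a ∩ ⋃ i ∈ t, S i) ≤ (t.card : ENNReal) * ε := by
      rw [inter_iUnion₂]
      refine (measure_biUnion_finset_le t _).trans ?_
      calc ∑ i ∈ t, μ (S a ∩ S i) ≤ ∑ i ∈ t, ε := by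
            apply Finset.sum_le_sum
            intro i hi
            apply h
            rintro rfl
            exact ha hi
        _ = (t.card : ENNReal) * ε := by simp
    have hmeas : MeasurableSet (⋃ i ∈ t, S i) := t.measurableSet_biUnion fun i _ => hS i
    calc μ (S a) + ∑ i ∈ t, μ (S i)
        ≤ μ (S a) + (μ (⋃ i ∈ t, S i) + (t.card : ENNReal) ^ 2 * ε) := by gcongr
      _ = (μ (S a ∪ ⋃ i ∈ t, S i) + μ (S a ∩ ⋃ i ∈ t, S i)) + (t.card : ENNReal) ^ 2 * ε := by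
          rw [measure_union_add_inter _ hmeas, add_assoc]
      _ ≤ (μ (S a ∪ ⋃ i ∈ t, S i) + (t.card : ENNReal) * ε) + (t.card : ENNReal) ^ 2 * ε := by
          gcongr
      _ = μ (S a ∪ ⋃ i ∈ t, S i) + (((t.card : ENNReal) + (t.card : ENNReal) ^ 2) * ε) := by
          rw [add_mul, add_assoc]
      _ ≤ μ (S a ∪ ⋃ i ∈ t, S i) + ((t.card + 1 : ℕ) : ENNReal) ^ 2 * ε := by
          gcongr
          have : (t.card + t.card ^ 2 : ℕ) ≤ (t.card + 1) ^ 2 := by nlinarith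
          exact_mod_cast this

theorem inter_B_zero (s : ℝ) (i : Fin 6) :
    B (ctr i) s ∩ B 0 s = B ((1 / 2 : ℝ) • ctr i) (s - 1 / 2) := by
  have key1 : ∀ t ρ : ℝ, (|t - 1| + ρ ≤ s ∧ |t| + ρ ≤ s) ↔ |t - 1 / 2| + ρ ≤ s - 1 / 2 := by
    intro t ρ
    constructor
    · rintro ⟨h1, h2⟩
      have a1 := le_abs_self t
      have a2 := neg_abs_le (t - 1)
      rcases abs_cases (t - 1 / 2) with h | h <;> linarith
    · intro h
      have a1 := le_abs_self (t - 1 / 2)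
      have a2 := neg_abs_le (t - 1 / 2)
      constructor
      · rcases abs_cases (t - 1) with h' | h' <;> linarith
      · rcases abs_cases t with h' | h' <;> linarith
  have key2 : ∀ t ρ : ℝ, (|t + 1| + ρ ≤ s ∧ |t| + ρ ≤ s) ↔ |t + 1 / 2| + ρ ≤ s - 1 / 2 := by
    intro t ρ
    have := key1 (-t) ρ
    rw [show (-t - 1) = -(t + 1) by ring, show (-t - 1 / 2) = -(t + 1 / 2) by ring, abs_neg,
      abs_neg, abs_neg] at this
    exact this
  ext x
  fin_cases i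
  · have := key1 (x 0) (|x 1| + |x 2|)
    simp only [← add_assoc] at this
    simpa [B, ctr] using this
  · have := key2 (x 0) (|x 1| + |x 2|)
    simp only [← add_assoc] at this
    simpa [B, ctr] using this
  · have := key1 (x 1) (|x 0| + |x 2|)
    simp only [← add_assoc] at this
    simpa [B, ctr, add_comm, add_left_comm, add_assoc] using this
  · have := key2 (x 1) (|x 0| + |x 2|)
    simp only [← add_assoc] at this
    simpa [B, ctr, add_comm, add_left_comm, add_assoc] using this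
  · have := key1 (x 2) (|x 0| + |x 1|)
    simp only [← add_assoc] at this
    simpa [B, ctr, add_comm, add_left_comm, add_assoc] using this
  · have := key2 (x 2) (|x 0| + |x 1|)
    simp only [← add_assoc] at this
    simpa [B, ctr, add_comm, add_left_comm, add_assoc] using this

/-- the union of the seven octahedra -/
def U (s : ℝ) : Set (Fin 3 → ℝ) := B 0 s ∪ ⋃ i : Fin 6, B (ctr i) s

theorem volume_diff (s : ℝ) (hs : 1 ≤ s) (i : Fin 6) :
    volume (B (ctr i) s \ B 0 s) = ENNReal.ofReal (4 / 3 * s ^ 3 - 4 / 3 * (s - 1 / 2) ^ 3) := by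
  have h1 := measure_inter_add_sdiff (μ := volume) (B (ctr i) s) (measurable_B 0 s)
  rw [inter_B_zero, volume_B _ _ (by linarith), volume_B _ _ (by linarith)] at h1
  rw [ENNReal.ofReal_sub _ (by have : 0 ≤ s - 1 / 2 := by linarith
                               positivity)]
  refine ENNReal.eq_sub_of_add_eq ENNReal.ofReal_ne_top ?_
  rw [add_comm]
  exact h1

theorem volume_U_eq (s : ℝ) (hs : 1 ≤ s) :
    volume (U s) = ENNReal.ofReal (4 / 3 * s ^ 3) +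
      volume (⋃ i ∈ (Finset.univ : Finset (Fin 6)), (B (ctr i) s \ B 0 s)) := by
  have : U s = B 0 s ∪ ⋃ i ∈ (Finset.univ : Finset (Fin 6)), (B (ctr i) s \ B 0 s) := by
    ext x
    simp only [U, mem_union, mem_iUnion, Set.mem_sdiff, Finset.mem_univ, exists_prop, true_and]
    by_cases h : x ∈ B 0 s <;> simp [h]
  rw [this, measure_union, volume_B _ _ (by linarith)]
  · rw [Set.disjoint_left]
    intro x hx hx'
    simp only [mem_iUnion, Set.mem_sdiff] at hx'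
    obtain ⟨i, _, _, h⟩ := hx'
    exact h hx
  · exact Finset.measurableSet_biUnion _ fun i _ => (measurable_B _ _).diff (measurable_B _ _)

/-- the main term of the volume -/
noncomputable def F (s : ℝ) : ℝ := 4 / 3 * s ^ 3 + 6 * (4 / 3 * s ^ 3 - 4 / 3 * (s - 1 / 2) ^ 3)

theorem volume_U_le (s : ℝ) (hs : 1 ≤ s) : volume (U s) ≤ ENNReal.ofReal (F s) := by
  have hpos : 0 ≤ 4 / 3 * s ^ 3 - 4 / 3 * (s - 1 / 2) ^ 3 := by
    have : (s - 1 / 2) ^ 3 ≤ s ^ 3 := by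
      apply pow_le_pow_left₀ <;> linarith
    linarith
  rw [volume_U_eq s hs, F, ENNReal.ofReal_add (by positivity) (by linarith)]
  gcongr
  refine (measure_biUnion_finset_le _ _).trans ?_
  simp only [volume_diff s hs]
  rw [Finset.sum_const, ENNReal.ofReal_mul (by norm_num)]
  simp

theorem le_volume_U (δ : ℝ) (hδ : 0 ≤ δ) (hδ1 : δ ≤ 1) :
    ENNReal.ofReal (F (1 + δ)) ≤ volume (U (1 + δ)) + ENNReal.ofReal (864 * δ ^ 2) := by
  set s := 1 + δ with hs'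
  have hs : 1 ≤ s := by linarith
  have hpos : 0 ≤ 4 / 3 * s ^ 3 - 4 / 3 * (s - 1 / 2) ^ 3 := by
    have : (s - 1 / 2) ^ 3 ≤ s ^ 3 := by
      apply pow_le_pow_left₀ <;> linarith
    linarith
  have hb := bonf volume (Finset.univ : Finset (Fin 6)) (fun i => B (ctr i) s \ B 0 s)
    (fun i => (measurable_B _ _).diff (measurable_B _ _)) (ENNReal.ofReal (24 * δ ^ 2))
    (fun i j hij => (measure_mono (inter_subset_inter sdiff_subset sdiff_subset)).trans
      (pair_le δ hδ hδ1 i j hij))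
  simp only [volume_diff s hs] at hb
  rw [volume_U_eq s hs, F, ENNReal.ofReal_add (by positivity) (by linarith), add_assoc]
  gcongr
  have e1 : ENNReal.ofReal (6 * (4 / 3 * s ^ 3 - 4 / 3 * (s - 1 / 2) ^ 3)) =
      ∑ i ∈ (Finset.univ : Finset (Fin 6)),
        ENNReal.ofReal (4 / 3 * s ^ 3 - 4 / 3 * (s - 1 / 2) ^ 3) := by
    rw [Finset.sum_const, ENNReal.ofReal_mul (by norm_num)]
    simp
  have e2 : ENNReal.ofReal (864 * δ ^ 2) =
      ((Finset.univ : Finset (Fin 6)).card : ENNReal) ^ 2 * ENNReal.ofReal (24 * δ ^ 2) := by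
    rw [show (864 * δ ^ 2 : ℝ) = 36 * (24 * δ ^ 2) by ring, ENNReal.ofReal_mul (by norm_num)]
    congr 1
    simp
    norm_num
  rw [e1, e2]
  exact hb

theorem smul_B (s : ℝ) (hs : 0 < s) : s • B 0 1 = B 0 s := by
  ext x
  rw [mem_smul_set_iff_inv_smul_mem₀ hs.ne']
  simp only [B, mem_ofPred_eq, Pi.smul_apply, smul_eq_mul, Pi.zero_apply, sub_zero, abs_mul,
    abs_inv, abs_of_pos hs]
  rw [← mul_add, ← mul_add, inv_mul_le_iff₀ hs, mul_one]

theorem convex_B (s : ℝ) : Convex ℝ (B 0 s) := by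
  intro x hx y hy a b ha hb hab
  simp only [B, mem_ofPred_eq, Pi.zero_apply, sub_zero, Pi.add_apply, Pi.smul_apply,
    smul_eq_mul] at *
  have h : ∀ i, |a * x i + b * y i| ≤ a * |x i| + b * |y i| := by
    intro i
    calc |a * x i + b * y i| ≤ |a * x i| + |b * y i| := abs_add_le _ _
      _ = a * |x i| + b * |y i| := by rw [abs_mul, abs_mul, abs_of_nonneg ha, abs_of_nonneg hb]
  have h0 := h 0
  have h1 := h 1
  have h2 := h 2
  have h3 := mul_le_mul_of_nonneg_left hx ha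
  have h4 := mul_le_mul_of_nonneg_left hy hb
  have h5 : a * s + b * s = s := by rw [← add_mul, hab, one_mul]
  linarith

theorem add_B (A : Set (Fin 3 → ℝ)) (s : ℝ) : A + B 0 s = ⋃ a ∈ A, B a s := by
  ext x
  simp only [Set.mem_add, mem_iUnion, exists_prop]
  constructor
  · rintro ⟨a, ha, b, hb, rfl⟩
    refine ⟨a, ha, ?_⟩
    simpa [B] using hb
  · rintro ⟨a, ha, hx⟩
    refine ⟨a, ha, x - a, ?_, add_sub_cancel a x⟩
    simpa [B] using hx

theorem union_eq (s : ℝ) : insert 0 (range ctr) + B 0 s = U s := by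
  rw [add_B, biUnion_insert, U, biUnion_range]

theorem sum_eq (δ : ℝ) (hδ : 0 < δ) :
    (insert 0 (range ctr) + (1 : ℝ) • B 0 1) + δ • B 0 1 = U (1 + δ) := by
  rw [add_assoc, ← (convex_B 1).add_smul zero_le_one hδ.le, smul_B _ (by linarith), union_eq]

theorem volume_U_one : volume (U 1) = ENNReal.ofReal (F 1) := by
  apply le_antisymm (volume_U_le 1 le_rfl)
  have := le_volume_U 0 le_rfl zero_le_one
  simpa using this

theorem isBounded_B (s : ℝ) : Bornology.IsBounded (B 0 s) := by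
  apply (Metric.isBounded_closedBall (x := (0 : Fin 3 → ℝ)) (r := s)).subset
  intro x hx
  simp only [B, mem_ofPred_eq, Pi.zero_apply, sub_zero] at hx
  have a0 := abs_nonneg (x 0)
  have a1 := abs_nonneg (x 1)
  have a2 := abs_nonneg (x 2)
  rw [mem_closedBall_zero_iff, pi_norm_le_iff_of_nonneg (by linarith)]
  intro i
  rw [Real.norm_eq_abs]
  fin_cases i
  · show |x 0| ≤ s
    linarith
  · show |x 1| ≤ s
    linarith
  · show |x 2| ≤ s
    linarith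

theorem F_pos (δ : ℝ) (hδ : 0 ≤ δ) : 0 ≤ F (1 + δ) := by
  have : F (1 + δ) = 25 / 3 + 22 * δ + 16 * δ ^ 2 + 4 / 3 * δ ^ 3 := by
    unfold F; ring
  rw [this]
  positivity

theorem surface_union : HasSurfaceArea (B 0 1) (insert 0 (range ctr) + (1 : ℝ) • B 0 1) 22 := by
  unfold HasSurfaceArea
  have hone : insert 0 (range ctr) + (1 : ℝ) • B 0 1 = U 1 := by
    rw [smul_B 1 one_pos, union_eq]
  have hU1 : (volume (U 1)).toReal = 25 / 3 := by
    rw [volume_U_one, ENNReal.toReal_ofReal]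
    · unfold F; norm_num
    · unfold F; norm_num
  have hUtop : ∀ δ : ℝ, 0 ≤ δ → volume (U (1 + δ)) ≠ ⊤ := fun δ hδ =>
    ((volume_U_le (1 + δ) (by linarith)).trans_lt ENNReal.ofReal_lt_top).ne
  have hupper : ∀ δ : ℝ, 0 ≤ δ → (volume (U (1 + δ))).toReal ≤
      25 / 3 + 22 * δ + 16 * δ ^ 2 + 4 / 3 * δ ^ 3 := by
    intro δ hδ
    have h := ENNReal.toReal_mono ENNReal.ofReal_ne_top (volume_U_le (1 + δ) (by linarith))
    rw [ENNReal.toReal_ofReal (F_pos δ hδ)] at h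
    have e : F (1 + δ) = 25 / 3 + 22 * δ + 16 * δ ^ 2 + 4 / 3 * δ ^ 3 := by
      unfold F; ring
    rwa [e] at h
  have hlower : ∀ δ : ℝ, 0 ≤ δ → δ ≤ 1 →
      25 / 3 + 22 * δ + 16 * δ ^ 2 + 4 / 3 * δ ^ 3 - 864 * δ ^ 2 ≤
        (volume (U (1 + δ))).toReal := by
    intro δ hδ hδ1
    have h := ENNReal.toReal_mono (by
      exact ENNReal.add_ne_top.2 ⟨hUtop δ hδ, ENNReal.ofReal_ne_top⟩) (le_volume_U δ hδ hδ1)
    rw [ENNReal.toReal_ofReal (F_pos δ hδ), ENNReal.toReal_add (hUtop δ hδ) ENNReal.ofReal_ne_top,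
      ENNReal.toReal_ofReal (by positivity)] at h
    have e : F (1 + δ) = 25 / 3 + 22 * δ + 16 * δ ^ 2 + 4 / 3 * δ ^ 3 := by
      unfold F; ring
    rw [e] at h
    linarith
  have hev : ∀ᶠ δ : ℝ in 𝓝[>] (0 : ℝ), 0 < δ ∧ δ ≤ 1 := by
    have : Ioc (0 : ℝ) 1 ∈ 𝓝[>] (0 : ℝ) := Ioc_mem_nhdsGT zero_lt_one
    filter_upwards [this] with δ hδ using ⟨hδ.1, hδ.2⟩
  have hlim1 : Tendsto (fun δ : ℝ => 22 + 16 * δ + 4 / 3 * δ ^ 2 - 864 * δ) (𝓝[>] 0) (𝓝 22) := by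
    have : Tendsto (fun δ : ℝ => 22 + 16 * δ + 4 / 3 * δ ^ 2 - 864 * δ) (𝓝 0)
        (𝓝 (22 + 16 * 0 + 4 / 3 * 0 ^ 2 - 864 * 0)) := by
      apply Continuous.tendsto
      fun_prop
    simp only [mul_zero, add_zero, ne_eq, OfNat.ofNat_ne_zero, not_false_eq_true, zero_pow,
      sub_zero] at this
    exact this.mono_left nhdsWithin_le_nhds
  have hlim2 : Tendsto (fun δ : ℝ => 22 + 16 * δ + 4 / 3 * δ ^ 2) (𝓝[>] 0) (𝓝 22) := by
    have : Tendsto (fun δ : ℝ => 22 + 16 * δ + 4 / 3 * δ ^ 2) (𝓝 0)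
        (𝓝 (22 + 16 * 0 + 4 / 3 * 0 ^ 2)) := by
      apply Continuous.tendsto
      fun_prop
    simp only [mul_zero, add_zero, ne_eq, OfNat.ofNat_ne_zero, not_false_eq_true, zero_pow]
      at this
    exact this.mono_left nhdsWithin_le_nhds
  refine tendsto_of_tendsto_of_tendsto_of_le_of_le' hlim1 hlim2 ?_ ?_
  · filter_upwards [hev] with δ hδ
    rw [sum_eq δ hδ.1, hone, hU1, le_div_iff₀ hδ.1]
    have := hlower δ hδ.1.le hδ.2
    nlinarith
  · filter_upwards [hev] with δ hδ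
    rw [sum_eq δ hδ.1, hone, hU1, div_le_iff₀ hδ.1]
    have := hupper δ hδ.1.le
    nlinarith

theorem copyAt_eq : copyAt (B 0 1) 0 0 (2 * 1) = B 0 2 := by
  rw [← smul_B 2 two_pos]
  ext x
  simp [copyAt, mem_smul_set]

theorem surface_double : HasSurfaceArea (B 0 1) (copyAt (B 0 1) 0 0 (2 * 1)) 16 := by
  unfold HasSurfaceArea
  rw [copyAt_eq]
  have hlim2 : Tendsto (fun δ : ℝ => 16 + 8 * δ + 4 / 3 * δ ^ 2) (𝓝[>] 0) (𝓝 16) := by
    have : Tendsto (fun δ : ℝ => 16 + 8 * δ + 4 / 3 * δ ^ 2) (𝓝 0)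
        (𝓝 (16 + 8 * 0 + 4 / 3 * 0 ^ 2)) := by
      apply Continuous.tendsto
      fun_prop
    simp only [mul_zero, add_zero, ne_eq, OfNat.ofNat_ne_zero, not_false_eq_true, zero_pow]
      at this
    exact this.mono_left nhdsWithin_le_nhds
  refine hlim2.congr' ?_
  filter_upwards [self_mem_nhdsWithin] with δ hδ
  have hδ' : (0 : ℝ) < δ := hδ
  have e : B 0 2 + δ • B 0 1 = B 0 (2 + δ) := by
    rw [← smul_B 2 two_pos, ← (convex_B 1).add_smul zero_le_two hδ'.le, smul_B _ (by linarith)]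
  rw [e, volume_B_zero _ (by linarith), volume_B_zero _ (by norm_num),
    ENNReal.toReal_ofReal (by positivity), ENNReal.toReal_ofReal (by norm_num)]
  field_simp
  ring

/-- The conjectured inequality fails in dimension three: for the octahedron
`K = {|y₀| + |y₁| + |y₂| ≤ 1}`, `r = 1`, `x₀ = 0` and the six vertices `x i` of `K`, the
`K`-surface area of `{x₀, x₁, …, x₆} ⊕ r K` is `22`, while that of `K(x₀; 2r)` is `16`. -/
theorem result :
    ∃ (K : Set (Fin 3 → ℝ)) (c x₀ : Fin 3 → ℝ) (r : ℝ) (N : ℕ) (x : Fin N → (Fin 3 → ℝ))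
      (v w : ℝ),
      K = {y | |y 0| + |y 1| + |y 2| ≤ 1} ∧
      Convex ℝ K ∧ Bornology.IsBounded K ∧ (∀ y ∈ K, (2 : ℝ) • c - y ∈ K) ∧ 0 < r ∧ 1 ≤ N ∧
      (∀ i, x i ∈ copyAt K c x₀ r) ∧
      HasSurfaceArea K (insert x₀ (Set.range x) + r • K) v ∧
      HasSurfaceArea K (copyAt K c x₀ (2 * r)) w ∧
      v = 22 ∧ w = 16 ∧ w < v := by
  refine ⟨B 0 1, 0, 0, 1, 6, ctr, 22, 16, ?_, convex_B 1, isBounded_B 1, ?_, one_pos, by norm_num,
    ?_, surface_union, surface_double, rfl, rfl, by norm_num⟩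
  · ext y
    simp [B]
  · intro y hy
    simpa [B] using hy
  · intro i
    refine ⟨ctr i, ?_, by simp⟩
    fin_cases i <;> simp [B, ctr]

end Pool.Agent.Results.MP_a80f1a_gt.OctahedronCounterexample
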